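import Pool.Agent.T6.H44.PA.FIN
import Pool.Agent.T6.H44.PA.TEL
import Pool.Agent.T6.H44.PA.SW
import Pool.Agent.T6.H44.PA.CO
import Pool.Agent.T6.H44.PA.DET
import Pool.Agent.T6.H44.PA.TVA
import Pool.Agent.T6.H44.PA.TVB

/-!
# MP_e39611_pr, Q2: the critical window of the preferential attachment graph process

Let `G^α_{n,m}` be the graph process on `n` vertices in which the next edge `{v, w}` is chosen
among the pairs of non-adjacent vertices with probability proportional to
`(d_v + α) (d_w + α)`, and let `α = α(n)`.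

* Quantitative comparison: for `2 ≤ n`, `0 < α`, `2 m ≤ n (n - 1) / 2` the `ℓ¹`-distance of the
  laws of `G^α_{n,m}` and of the uniform graph with `m` edges is at most
  `4 m / (α √n) * √(1 + 3 m / n)`.
* Hence the distance tends to `0` if `α / √n → ∞` and `m = O(n)`.
* Q2, answered with yes, and with `α / √n → ∞` in place of `α / n^{2/3} → ∞`: in the critical
  window `m = ⌊m_c (1 + ε)⌋`, `m_c = n α / (2 (α + 1))`, `ε n^{1/3} → λ`, for every `k` and every
  bounded continuous `F` on `ℝ^k`, the mean of `F` at `(L_1, …, L_k) / n^{2/3}` of `G^α_{n,m}` and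
  the mean of `F` at the same vector of the uniform graph with `⌊(n/2) (1 + λ n^{-1/3})⌋` edges
  have difference tending to `0`; hence one vector converges in distribution to a probability
  measure if and only if the other one converges in distribution to it.

The definitions are repeated here, they agree with those of `Pool.Agent.T6.H44.PA.Defs`.
-/

set_option autoImplicit false

namespace Pool.Agent.Results.MP_e39611_pr.CriticalWindow

open Finset Classical Filter Topology

/-- the edges of the complete graph on the vertex set `Fin n`: a graph on `Fin n` is identified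
with its edge set, a subset of `allE n` -/
noncomputable def allE (n : ℕ) : Finset (Sym2 (Fin n)) := univ.filter (fun e => ¬ e.IsDiag)

/-- degree of `v` in the graph with edge set `H` -/
noncomputable def deg {n : ℕ} (H : Finset (Sym2 (Fin n))) (v : Fin n) : ℕ :=
  (H.filter (fun e => v ∈ e)).card

/-- the weight `(d_v + α) (d_w + α)` of the pair `{v, w}` (the product over the elements of the
pair), where `d` are the degrees in the graph with edge set `H` -/
noncomputable def wgt {n : ℕ} (α : ℝ) (H : Finset (Sym2 (Fin n))) (e : Sym2 (Fin n)) : ℝ :=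
  ∏ v ∈ univ.filter (fun v => v ∈ e), ((deg H v : ℝ) + α)

/-- the law of the edge set after `m` steps: it starts with no edges, and given the current edge
set `G`, the next edge is `e` with probability `w G e / ∑ f, w G f`, the sum over the pairs `f` of
distinct vertices not in `G` -/
noncomputable def law {n : ℕ} (w : Finset (Sym2 (Fin n)) → Sym2 (Fin n) → ℝ) :
    ℕ → Finset (Sym2 (Fin n)) → ℝ
  | 0, H => if H = ∅ then 1 else 0
  | m + 1, H => ∑ e ∈ H ∩ allE n, law w m (H.erase e) *
      (w (H.erase e) e / ∑ f ∈ allE n \ H.erase e, w (H.erase e) f)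

/-- `pa α m H` is the probability that `G^α_{n,m}` has edge set `H` -/
noncomputable def pa {n : ℕ} (α : ℝ) (m : ℕ) (H : Finset (Sym2 (Fin n))) : ℝ := law (wgt α) m H

/-- `er m H` is the probability that the uniform graph with `m` edges has edge set `H` -/
noncomputable def er {n : ℕ} (m : ℕ) (H : Finset (Sym2 (Fin n))) : ℝ :=
  if H ⊆ allE n ∧ H.card = m then 1 / ((allE n).card.choose m : ℝ) else 0

/-- the (vertex set of the) component of `v` in the graph with edge set `H` -/
noncomputable def comp {n : ℕ} (H : Finset (Sym2 (Fin n))) (v : Fin n) : Finset (Fin n) :=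
  univ.filter (fun w => (SimpleGraph.fromEdgeSet (H : Set (Sym2 (Fin n)))).Reachable v w)

/-- the set of the components of the graph with edge set `H` -/
noncomputable def comps {n : ℕ} (H : Finset (Sym2 (Fin n))) : Finset (Finset (Fin n)) :=
  univ.image (comp H)

/-- `L H j`, `j ≥ 1`, is the number of vertices of the `j`-th largest component, `0` if there are
fewer than `j` components: the largest `s ≤ n` such that at least `j` components have at least
`s` vertices (`0` if there is no such `s`) -/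
noncomputable def L {n : ℕ} (H : Finset (Sym2 (Fin n))) (j : ℕ) : ℕ :=
  Nat.findGreatest (fun s => j ≤ ((comps H).filter (fun C => s ≤ C.card)).card) n

theorem law_eq {n : ℕ} (w : Finset (Sym2 (Fin n)) → Sym2 (Fin n) → ℝ) (m : ℕ)
    (H : Finset (Sym2 (Fin n))) : law w m H = Pool.Agent.T6.H44.PA.law w m H := by
  induction m generalizing H with
  | zero => simp only [law, Pool.Agent.T6.H44.PA.law]
  | succ m ih =>
    simp only [law, Pool.Agent.T6.H44.PA.law, ih]
    rfl

theorem pa_eq {n : ℕ} (α : ℝ) (m : ℕ) (H : Finset (Sym2 (Fin n))) :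
    pa α m H = Pool.Agent.T6.H44.PA.law (Pool.Agent.T6.H44.PA.wgt α) m H :=
  law_eq _ _ _

theorem er_eq {n : ℕ} (m : ℕ) (H : Finset (Sym2 (Fin n))) :
    er m H = Pool.Agent.T6.H44.PA.er m H := rfl

theorem L_eq {n : ℕ} (H : Finset (Sym2 (Fin n))) (j : ℕ) :
    L H j = Pool.Agent.T6.H44.PA.L H j := rfl

/-- **Main theorem.** -/
theorem result :
    -- `pa α m` is a probability distribution on the graphs with `m` edges
    (∀ (n m : ℕ) (α : ℝ), 0 < α → m ≤ (allE n).card →
      (∀ H : Finset (Sym2 (Fin n)), 0 ≤ pa α m H) ∧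
      (∀ H : Finset (Sym2 (Fin n)), pa α m H ≠ 0 → H ⊆ allE n ∧ H.card = m) ∧
      ∑ H : Finset (Sym2 (Fin n)), pa α m H = 1) ∧
    -- the quantitative comparison with the uniform graph with `m` edges
    (∀ (n m : ℕ) (α : ℝ), 2 ≤ n → 0 < α → 2 * m ≤ (allE n).card →
      ∑ H : Finset (Sym2 (Fin n)), |pa α m H - er m H|
        ≤ 4 * m / (α * Real.sqrt n) * Real.sqrt (1 + 3 * m / n)) ∧
    -- total variation convergence if `α / √n → ∞` and `m = O(n)`
    (∀ (α : ℕ → ℝ) (m : ℕ → ℕ) (C : ℝ), 0 ≤ C → (∀ n, 0 < α n) →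
      Tendsto (fun n : ℕ => α n / Real.sqrt n) atTop atTop →
      (∀ᶠ n : ℕ in atTop, (m n : ℝ) ≤ C * n) →
      Tendsto (fun n : ℕ => ∑ H : Finset (Sym2 (Fin n)), |pa (α n) (m n) H - er (m n) H|)
        atTop (𝓝 0)) ∧
    -- Q2
    (∀ (lam : ℝ) (α ε : ℕ → ℝ) (m m' : ℕ → ℕ), (∀ n, 0 < α n) →
      Tendsto (fun n : ℕ => α n / Real.sqrt n) atTop atTop →
      Tendsto (fun n : ℕ => ε n * (n : ℝ) ^ (1 / 3 : ℝ)) atTop (𝓝 lam) →
      (∀ n : ℕ, m n = ⌊(n * α n / (2 * (α n + 1))) * (1 + ε n)⌋₊) →
      (∀ n : ℕ, m' n = ⌊((n : ℝ) / 2) * (1 + lam / (n : ℝ) ^ (1 / 3 : ℝ))⌋₊) →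
      ∀ (k : ℕ) (F : (Fin k → ℝ) → ℝ), Continuous F → (∃ B : ℝ, ∀ u, |F u| ≤ B) →
        Tendsto (fun n : ℕ =>
          ∑ H : Finset (Sym2 (Fin n)), pa (α n) (m n) H *
            F (fun j => (L H (j + 1) : ℝ) / (n : ℝ) ^ (2 / 3 : ℝ))
          - ∑ H : Finset (Sym2 (Fin n)), er (m' n) H *
            F (fun j => (L H (j + 1) : ℝ) / (n : ℝ) ^ (2 / 3 : ℝ))) atTop (𝓝 0)) := by
  have hTVB := Pool.Agent.T6.H44.PA.tvb Pool.Agent.T6.H44.PA.tva
  refine ⟨?_, ?_, ?_, ?_⟩
  · intro n m α hα hm
    have hw : ∀ (H : Finset (Sym2 (Fin n))) (e : Sym2 (Fin n)),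
        0 < Pool.Agent.T6.H44.PA.wgt α H e := by
      intro H e
      refine Finset.prod_pos fun v _ => ?_
      positivity
    have hne : ∀ H : Finset (Sym2 (Fin n)), pa α m H ≠ 0 → H ⊆ allE n ∧ H.card = m := by
      intro H h
      rw [pa_eq] at h
      exact Finset.mem_powersetCard.1 (Pool.Agent.T6.H44.PA.ModTVA.law_zero_of_ne _ m H h)
    refine ⟨fun H => ?_, hne, ?_⟩
    · by_contra hneg
      have h0 : pa α m H ≠ 0 := fun h => hneg h.ge
      have h1 := hne H h0
      rw [pa_eq] at hneg
      exact hneg (Pool.Agent.T6.H44.PA.ModTVA.law_pos _ hw m H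
        (Finset.mem_powersetCard.2 h1)).le
    · rw [← Pool.Agent.T6.H44.PA.ModTVA.law_sum _ hw m hm]
      simp_rw [← pa_eq]
      symm
      apply Finset.sum_subset (Finset.subset_univ _)
      intro H _ hH
      by_contra h
      exact hH (Finset.mem_powersetCard.2 (hne H h))
  · intro n m α hn hα hm
    have h := hTVB n m α hn hα hm
    simp_rw [pa_eq, er_eq]
    exact h
  · intro α m C hC hα0 hα hm
    have h := Pool.Agent.T6.H44.PA.tvlim hTVB α m hC hα0 hα hm
    simp_rw [pa_eq, er_eq]
    exact h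
  · intro lam α ε m m' hα0 hα hε hm hm' k F hF hB
    have h := Pool.Agent.T6.H44.PA.mainQ2
      (Pool.Agent.T6.H44.PA.tel Pool.Agent.T6.H44.PA.br)
      (Pool.Agent.T6.H44.PA.sw Pool.Agent.T6.H44.PA.co)
      Pool.Agent.T6.H44.PA.co Pool.Agent.T6.H44.PA.det hTVB
      lam α ε m m' hα0 hα hε hm hm' k F hF hB
    simp_rw [pa_eq, er_eq, L_eq]
    exact h

end Pool.Agent.Results.MP_e39611_pr.CriticalWindow
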